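import Pool.Agent.DIF.Stmts

/-!
# Squad DIF, row DMB: the Moebius maps are diffeomorphisms
-/

set_option autoImplicit false

open scoped InnerProductSpace Topology ContDiff Manifold
open MeasureTheory Filter Set

noncomputable section

namespace Pool.Agent.DIF.H60

open Pool.Agent.Helper42_Paneitz Pool.Agent.Helper82_Vir Pool.Agent.FLX

theorem smooth_mobE (b x : E5) (h : (1 : ℝ) + ⟪b, x⟫_ℝ ≠ 0) :
    ContDiffAt ℝ ∞ (fun v : E5 => mobE b v) x := by
  have h1 : ContDiffAt ℝ ∞ (fun v : E5 => ⟪b, v⟫_ℝ) x :=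
    contDiffAt_const.inner ℝ contDiffAt_id
  unfold mobE
  have h2 : ContDiffAt ℝ ∞ (fun v : E5 => 1 + ⟪b, v⟫_ℝ) x := contDiffAt_const.add h1
  have h3 : ContDiffAt ℝ ∞ (fun v : E5 => FLX.sq b • v) x :=
    (contDiff_const_smul (FLX.sq b)).contDiffAt
  have h4 : ContDiffAt ℝ ∞ (fun v : E5 => (1 + ⟪b, v⟫_ℝ / (1 + sq b)) • b) x :=
    (contDiffAt_const.add (h1.div_const _)).smul contDiffAt_const
  exact (h2.inv h).smul (h3.add h4)

theorem smooth_mob (moa : MoaStmt) (smo : SmoStmt) {b : E5} (hb : ‖b‖ < 1) :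
    ContMDiff (𝓡 4) (𝓡 4) ∞ (mob b) := by
  obtain ⟨m1, m2, _⟩ := moa b hb
  exact smo.1 (fun v => mobE b v) (mob b) (fun x => smooth_mobE b x (m1 x).ne') m2

/-- DMB. -/
theorem dmb (moa : MoaStmt) (smo : SmoStmt) : DmbStmt := by
  intro b hb
  have hb' : ‖-b‖ < 1 := by rwa [norm_neg]
  refine smo.2.1 (mob b) (mob (-b)) (smooth_mob moa smo hb) (smooth_mob moa smo hb') ?_ ?_
  · intro x
    have h := (moa (-b) hb').2.2.2.1 x
    rwa [neg_neg] at h
  · intro x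
    exact (moa b hb).2.2.2.1 x

end Pool.Agent.DIF.H60
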