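import Pool.Agent.DIF.Stmts

/-!
# Squad DIF, row DPR: the projective stretches are diffeomorphisms
-/

set_option autoImplicit false

open scoped InnerProductSpace Topology ContDiff Manifold
open MeasureTheory Filter Set

noncomputable section

namespace Pool.Agent.DIF.H60

open Pool.Agent.Helper42_Paneitz Pool.Agent.Helper82_Vir Pool.Agent.FLX

/-- the linear stretch -/
def str (p : E5) (l : ℝ) (v : E5) : E5 := v + ((l - 1) * ⟪p, v⟫_ℝ) • p

theorem inner_str {p : E5} (hp : ‖p‖ = 1) (l : ℝ) (v : E5) :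
    ⟪p, str p l v⟫_ℝ = l * ⟪p, v⟫_ℝ := by
  unfold str
  rw [inner_add_right, real_inner_smul_right, real_inner_self_eq_norm_sq, hp]
  ring

theorem str_str {p : E5} (hp : ‖p‖ = 1) {l : ℝ} (hl : 0 < l) (v : E5) :
    str p l⁻¹ (str p l v) = v := by
  have h := inner_str hp l v
  rw [str, h]
  unfold str
  rw [add_assoc, ← add_smul]
  have h1 : (l - 1) * ⟪p, v⟫_ℝ + (l⁻¹ - 1) * (l * ⟪p, v⟫_ℝ) = 0 := by
    field_simp
    ring
  rw [h1, zero_smul, add_zero]

theorem str_smul (p : E5) (l c : ℝ) (v : E5) : str p l (c • v) = c • str p l v := by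
  unfold str
  rw [smul_add, real_inner_smul_right, smul_smul]
  congr 2
  ring

theorem str_ne {p : E5} (hp : ‖p‖ = 1) {l : ℝ} (hl : 0 < l) (x : S4) : str p l (x : E5) ≠ 0 := by
  intro h
  have h1 := str_str hp hl (x : E5)
  rw [h] at h1
  have h2 : str p l⁻¹ (0 : E5) = 0 := by
    unfold str
    simp
  rw [h2] at h1
  have h3 : ‖(x : E5)‖ = 1 := mem_sphere_zero_iff_norm.1 x.2
  rw [← h1, norm_zero] at h3
  exact zero_ne_one h3

theorem prj_coe {p : E5} (hp : ‖p‖ = 1) {l : ℝ} (hl : 0 < l) (x : S4) :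
    (prj p l x : E5) = ‖str p l (x : E5)‖⁻¹ • str p l (x : E5) := by
  have h : str p l (x : E5) ≠ 0 := str_ne hp hl x
  unfold prj nrmz
  rw [dif_pos (show (x : E5) + ((l - 1) * ⟪p, (x : E5)⟫_ℝ) • p ≠ 0 from h)]
  rfl

theorem prj_prj {p : E5} (hp : ‖p‖ = 1) {l : ℝ} (hl : 0 < l) (x : S4) :
    prj p l⁻¹ (prj p l x) = x := by
  apply Subtype.ext
  rw [prj_coe hp (inv_pos.mpr hl), prj_coe hp hl, str_smul, str_str hp hl]
  have h3 : ‖(x : E5)‖ = 1 := mem_sphere_zero_iff_norm.1 x.2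
  have h4 : 0 < ‖str p l (x : E5)‖ := norm_pos_iff.mpr (str_ne hp hl x)
  rw [norm_smul, h3, mul_one, norm_inv, norm_norm, inv_inv, smul_smul, mul_inv_cancel₀ h4.ne',
    one_smul]

theorem smooth_str (p : E5) (l : ℝ) (x : E5) : ContDiffAt ℝ ∞ (str p l) x := by
  have h1 : ContDiffAt ℝ ∞ (fun v : E5 => ⟪p, v⟫_ℝ) x := contDiffAt_const.inner ℝ contDiffAt_id
  unfold str
  exact contDiffAt_id.add ((contDiffAt_const.mul h1).smul contDiffAt_const)

theorem smooth_prj (smo : SmoStmt) {p : E5} (hp : ‖p‖ = 1) {l : ℝ} (hl : 0 < l) :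
    ContMDiff (𝓡 4) (𝓡 4) ∞ (prj p l) := by
  refine smo.1 (fun v => ‖str p l v‖⁻¹ • str p l v) (prj p l) ?_ (prj_coe hp hl)
  intro x
  have h := smooth_str p l (x : E5)
  have hne := str_ne hp hl x
  exact ((h.norm ℝ hne).inv (norm_ne_zero_iff.mpr hne)).smul h

/-- DPR. -/
theorem dpr (smo : SmoStmt) : DprStmt := by
  intro p l hp hl
  refine ⟨?_, fun x => ⟨str_ne hp hl x, prj_coe hp hl x⟩⟩
  have hl' := inv_pos.mpr hl
  refine smo.2.1 (prj p l) (prj p l⁻¹) (smooth_prj smo hp hl) (smooth_prj smo hp hl') ?_ ?_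
  · intro x
    have h := prj_prj hp hl' x
    rwa [inv_inv] at h
  · intro x
    exact prj_prj hp hl x

end Pool.Agent.DIF.H60
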